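import Pool.Agent.N119.PS.Stm

set_option autoImplicit false

/-!
# Project PSC (helper119), leaf LOW (helper359): linear lower bound for displacements
-/

namespace Pool.Agent.N359.PSC.LOW

open Pool.Agent.H472R3 Pool.Agent.H67R3.FSR Pool.Agent.H67R4.SR Pool.Agent.N119.PS

theorem t (h : Pool.Agent.N119.PS.S_BCL) : Pool.Agent.N119.PS.S_LOW := by
  intro N A hA x
  obtain ⟨C, hC0, hC⟩ := h N A hA x
  have hfin := proper A hA x (2 * C + 1)
  obtain ⟨R, hR1, hR⟩ : ∃ R : ℕ, 1 ≤ R ∧ ∀ g : FreeGroup (Fin N),
      (lenFn A x).L g ≤ 2 * C + 1 → g.norm < R := by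
    refine ⟨hfin.toFinset.sup FreeGroup.norm + 1, Nat.le_add_left _ _, ?_⟩
    intro g hg
    rw [lenFn_L] at hg
    have hmem : g ∈ hfin.toFinset := hfin.mem_toFinset.2 hg
    exact Nat.lt_succ_of_le (Finset.le_sup (f := FreeGroup.norm) hmem)
  have key : ∀ n : ℕ, ∀ g : FreeGroup (Fin N), g.norm = n →
      ((n / R : ℕ) : ℝ) ≤ (lenFn A x).L g := by
    intro n
    induction n using Nat.strong_induction_on with
    | _ n ih =>
      intro g hg
      by_cases hn : n < R
      · rw [Nat.div_eq_of_lt hn, Nat.cast_zero]
        exact L_nonneg _ _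
      · push Not at hn
        have hlen : g.toWord.length = n := hg
        have hred : FreeGroup.IsReduced (g.toWord.take R ++ g.toWord.drop R) := by
          rw [List.take_append_drop]
          exact FreeGroup.isReduced_toWord
        have hr1 : FreeGroup.IsReduced (g.toWord.take R) := (List.isChain_append.mp hred).1
        have hr2 : FreeGroup.IsReduced (g.toWord.drop R) := (List.isChain_append.mp hred).2.1
        have hu : (FreeGroup.mk (g.toWord.take R)).toWord = g.toWord.take R := toWord_mk_red hr1
        have hv : (FreeGroup.mk (g.toWord.drop R)).toWord = g.toWord.drop R := toWord_mk_red hr2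
        have huv : FreeGroup.mk (g.toWord.take R) * FreeGroup.mk (g.toWord.drop R) = g := by
          rw [FreeGroup.mul_mk, List.take_append_drop, FreeGroup.mk_toWord]
        have hnu : (FreeGroup.mk (g.toWord.take R)).norm = R := by
          unfold FreeGroup.norm
          rw [hu, List.length_take, hlen]
          omega
        have hnv : (FreeGroup.mk (g.toWord.drop R)).norm = n - R := by
          unfold FreeGroup.norm
          rw [hv, List.length_drop, hlen]
        have h1 := hC (FreeGroup.mk (g.toWord.take R)) (FreeGroup.mk (g.toWord.drop R))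
          (by rw [hu, hv]; exact hred)
        rw [huv] at h1
        have h2 : 2 * C + 1 < (lenFn A x).L (FreeGroup.mk (g.toWord.take R)) := by
          by_contra hc
          push Not at hc
          have := hR _ hc
          omega
        have h3 := ih (n - R) (by omega) (FreeGroup.mk (g.toWord.drop R)) hnv
        have h4 : n / R = (n - R) / R + 1 := Nat.div_eq_sub_div (by omega) hn
        rw [h4]
        push_cast
        linarith
  have hRr : (0 : ℝ) < R := by exact_mod_cast (by omega : 0 < R)
  refine ⟨1 / R, 1, by positivity, ?_⟩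
  intro g
  have h1 := key g.norm g rfl
  have h2 : (g.norm : ℝ) ≤ R * ((g.norm / R : ℕ) : ℝ) + R := by
    have h3 := Nat.div_add_mod g.norm R
    have h4 := Nat.mod_lt g.norm (show 0 < R by omega)
    have h5 : g.norm ≤ R * (g.norm / R) + R := by omega
    exact_mod_cast h5
  rw [one_div, inv_mul_eq_div, div_le_iff₀ hRr]
  nlinarith

end Pool.Agent.N359.PSC.LOW
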